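import Pool.Agent.H96.AL.Targets4

open Topology Set Filter Real

namespace Pool.Agent.H6.AL

open Pool.Agent.H96.AL

/-- Strict push-off. -/
theorem g2 (hPO : T_PO) (hSF : T_SF) (hHD : T_HD) (hGD : T_GD) (hGA : T_GA) (hSA : T_SA)
    (hFL : T_FL) (hFO : T_FO) : T_G2 := by
  intro X _ D hS hdim m E hE i₀ x hx U' hU' hxU'
  have := hS.compact
  have hD1 : 1 ≤ D := hS.one_le
  have hD : 0 ≤ D := zero_le_one.trans hD1
  have hch : 0 < cosh D := cosh_pos D
  obtain ⟨K₁, δ₁, hK₁, hδ₁, hpo⟩ := hPO X D hS hdim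
  have hcl : IsClosed (E i₀) := (hE i₀).1.1
  have hne : (E i₀).Nonempty := (hE i₀).2
  -- the radius
  obtain ⟨r, hr, hrU⟩ : ∃ r > 0, Metric.closedBall x (4 * r) ⊆ U' := by
    obtain ⟨s, hs, hsU⟩ := Metric.isOpen_iff.1 hU' x hxU'
    refine ⟨s / 8, by positivity, fun z hz => hsU ?_⟩
    rw [Metric.mem_closedBall] at hz
    rw [Metric.mem_ball]
    linarith
  obtain ⟨δ, hδ0, hδlt, hδr⟩ : ∃ δ, 0 < δ ∧ δ < δ₁ ∧ K₁ * δ ≤ r := by
    refine ⟨min (δ₁ / 2) (r / K₁), by positivity, ?_, ?_⟩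
    · exact (min_le_left _ _).trans_lt (by linarith)
    · calc K₁ * min (δ₁ / 2) (r / K₁) ≤ K₁ * (r / K₁) :=
            mul_le_mul_of_nonneg_left (min_le_right _ _) hK₁.le
        _ = r := by field_simp
  -- the function
  let f : X → ℝ := fun z => min (hd (E i₀) z) (δ ^ 2 / 2)
  obtain ⟨hSC0, hLip0, -⟩ := hHD X D hS (E i₀) hcl hne
  have hLipc : Lip D (fun _ : X => δ ^ 2 / 2) := fun a b => by
    simp only [sub_self, abs_zero]
    exact mul_nonneg hD dist_nonneg
  have hSCc : SC (cosh D) (fun _ : X => δ ^ 2 / 2) := by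
    intro a b c t ht _ _
    have h1 : 0 ≤ cosh D / 2 * t * (1 - t) * dist a b ^ 2 := by
      have := ht.1
      have := sub_nonneg.2 ht.2
      positivity
    nlinarith
  have hGoodc : Good (cosh D ^ 2) (fun _ : X => δ ^ 2 / 2) := by
    intro A _ z p _
    have : 0 ≤ cosh D ^ 2 * dist z p ^ 2 := by positivity
    show δ ^ 2 / 2 - cosh D ^ 2 * dist z p ^ 2 ≤ δ ^ 2 / 2
    linarith
  have hLip : Lip D f := by
    have := ((hSA X (hd (E i₀)) (fun _ => δ ^ 2 / 2) D D (cosh D) (cosh D) 0 0 hD hD hch.le hch.le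
      le_rfl).1 hLip0 hLipc).2.1
    rwa [max_self] at this
  have hSC : SC (cosh D) f := by
    have := ((hSA X (hd (E i₀)) (fun _ => δ ^ 2 / 2) D D (cosh D) (cosh D) 0 0 hD hD hch.le hch.le
      le_rfl).2 hSC0 hSCc).2.1
    rwa [max_self] at this
  have hGood : Good (cosh D ^ 2) f := by
    have hc2 : 0 ≤ cosh D ^ 2 := by positivity
    have := (hGA X (hd (E i₀)) (fun _ => δ ^ 2 / 2) (cosh D ^ 2) (cosh D ^ 2) 0 hc2 hc2
      le_rfl ((hGD X D hS).2 (E i₀) hcl hne) hGoodc).2.1
    rwa [max_self] at this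
  -- the distance to the set
  let u : X → ℝ := fun z => Metric.infDist z (E i₀)
  have hucont : Continuous u := Metric.continuous_infDist_pt _
  let W : Set X := Metric.ball x r \ E i₀
  have hupos : ∀ z, z ∉ E i₀ → 0 < u z := fun z hz => by
    have h1 := (hFO X (E i₀) hcl hne z).2.2
    have h2 : 0 ≤ u z := Metric.infDist_nonneg
    rcases h2.eq_or_lt with h | h
    · exact absurd (h1.1 h.symm) hz
    · exact h
  let τ : X → ℝ := fun z => K₁ * (1 + max 0 (log (δ / u z)))
  have hτcont : ContinuousOn τ W := by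
    refine ContinuousOn.mul continuousOn_const (ContinuousOn.add continuousOn_const ?_)
    refine ContinuousOn.sup continuousOn_const ?_
    refine ContinuousOn.log (ContinuousOn.div continuousOn_const hucont.continuousOn ?_) ?_
    · exact fun z hz => (hupos z hz.2).ne'
    · exact fun z hz => (div_pos hδ0 (hupos z hz.2)).ne'
  have hτpos : ∀ z, 0 < τ z := fun z => by
    have : 0 ≤ max 0 (log (δ / u z)) := le_max_left _ _
    show 0 < K₁ * (1 + max 0 (log (δ / u z)))
    positivity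
  obtain ⟨sm, hsm0, hsmr, hsmδ⟩ : ∃ sm : ℝ, 0 < sm ∧ sm ≤ r ∧ sm ≤ δ / 2 :=
    ⟨min r (δ / 2), by positivity, min_le_left _ _, min_le_right _ _⟩
  let η : X → ℝ := fun z => min 1
    (sm ^ 2 * exp (-(2 * cosh D * τ z)) / (2 * (1 + D) * (m + 1) * (τ z + 1)))
  have hden : ∀ z, 0 < 2 * (1 + D) * ((m : ℝ) + 1) * (τ z + 1) := fun z => by
    have := hτpos z
    positivity
  have hηcont : ContinuousOn η W := by
    refine ContinuousOn.inf continuousOn_const ?_
    refine ContinuousOn.div ?_ ?_ (fun z _ => (hden z).ne')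
    · refine ContinuousOn.mul continuousOn_const ?_
      exact (continuous_exp.comp_continuousOn ((continuousOn_const.mul hτcont).neg))
    · exact continuousOn_const.mul (hτcont.add continuousOn_const)
  have hη : ∀ y ∈ W, 0 < η y ∧ η y ≤ 1 := fun y _ => by
    refine ⟨lt_min one_pos (div_pos (by positivity) (hden y)), min_le_left _ _⟩
  have hη2 : ∀ y, η y * (2 * (1 + D) * ((m : ℝ) + 1) * (τ y + 1))
      ≤ sm ^ 2 * exp (-(2 * cosh D * τ y)) := fun y => by
    rw [← le_div_iff₀ (hden y)]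
    exact min_le_right _ _
  obtain ⟨H, hH0, hHcont, hHstrict, hHnear⟩ := hSF X D hS f D (cosh D) (cosh D ^ 2) hD hch.le
    (by positivity) hLip hSC hGood m E hE W η hηcont hη
  -- the estimates
  have hest : ∀ y ∈ W, ∀ s : ℝ, 0 ≤ s → s ≤ τ y → dist x (H y s) ≤ 3 * r ∧
      (s = τ y → δ / 2 ≤ u (H y s)) := by
    intro y hy s hs hsτ
    obtain ⟨β, hβ0, hβ⟩ := hFL X D hS f D (cosh D) hD hch.le hLip hSC y
    have h1 := hHnear y hy β hβ hβ0 s hs
    have hηy := hη y hy
    have h2 : dist (H y s) (β s) ^ 2 ≤ sm ^ 2 := by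
      refine h1.trans ?_
      have e1 : exp (2 * cosh D * s) ≤ exp (2 * cosh D * τ y) :=
        exp_le_exp.2 (mul_le_mul_of_nonneg_left hsτ (by positivity))
      have e2 : 2 * (1 + D) * (m : ℝ) * η y * s ≤ sm ^ 2 * exp (-(2 * cosh D * τ y)) := by
        refine le_trans ?_ (hη2 y)
        have a1 : (m : ℝ) * s ≤ ((m : ℝ) + 1) * (τ y + 1) := by
          have hm0 : (0 : ℝ) ≤ m := Nat.cast_nonneg m
          nlinarith [hτpos y]
        calc 2 * (1 + D) * (m : ℝ) * η y * s = 2 * (1 + D) * η y * (m * s) := by ring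
          _ ≤ 2 * (1 + D) * η y * (((m : ℝ) + 1) * (τ y + 1)) :=
              mul_le_mul_of_nonneg_left a1 (by
                have := hηy.1
                positivity)
          _ = η y * (2 * (1 + D) * ((m : ℝ) + 1) * (τ y + 1)) := by ring
      have e3 : 0 ≤ 2 * (1 + D) * (m : ℝ) * η y * s := by
        have := hηy.1
        positivity
      calc exp (2 * cosh D * s) * (2 * (1 + D) * (m : ℝ) * η y * s)
          ≤ exp (2 * cosh D * τ y) * (sm ^ 2 * exp (-(2 * cosh D * τ y))) :=
            mul_le_mul e1 e2 e3 (exp_pos _).le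
        _ = sm ^ 2 := by
            rw [exp_neg]
            field_simp
    have h3 : dist (H y s) (β s) ≤ sm := by
      have := abs_le_of_sq_le_sq h2 hsm0.le
      rwa [abs_of_nonneg dist_nonneg] at this
    have hu0 : 0 < Metric.infDist (β 0) (E i₀) := by
      rw [hβ0]
      exact hupos y hy.2
    obtain ⟨h4, h5⟩ := hpo (E i₀) (hE i₀).1 hne δ D hδ0 hδlt β hβ hu0 s hs
    rw [hβ0] at h4
    refine ⟨?_, fun hsτ' => ?_⟩
    · have h6 : dist y x < r := hy.1
      calc dist x (H y s) ≤ dist x y + dist y (β s) + dist (β s) (H y s) := dist_triangle4 _ _ _ _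
        _ ≤ r + r + r := by
            rw [dist_comm x y, dist_comm (β s) (H y s)]
            linarith
        _ = 3 * r := by ring
    · have h7 : δ ≤ Metric.infDist (β s) (E i₀) := by
        apply h5
        rw [hβ0, hsτ']
      have h8 : Metric.infDist (β s) (E i₀) ≤ Metric.infDist (H y s) (E i₀) + dist (β s) (H y s) :=
        Metric.infDist_le_infDist_add_dist
      rw [dist_comm] at h8
      show δ / 2 ≤ Metric.infDist (H y s) (E i₀)
      linarith
  refine ⟨Metric.ball x r, Metric.isOpen_ball, Metric.mem_ball_self hr, ?_,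
    fun y t => H y (t * τ y), {z | δ / 2 ≤ u z} ∩ Metric.closedBall x (4 * r), ?_, ?_, ?_, ?_, ?_⟩
  · intro z hz
    refine hrU ?_
    rw [Metric.mem_ball] at hz
    rw [Metric.mem_closedBall]
    linarith
  · exact ((isClosed_le continuous_const hucont).inter Metric.isClosed_closedBall).isCompact
  · rintro z ⟨hz1, hz2⟩
    refine ⟨hrU hz2, fun hz3 => ?_⟩
    have : u z = 0 := (hFO X (E i₀) hcl hne z).2.2.2 hz3
    have hz1' : δ / 2 ≤ u z := hz1
    linarith
  · have hmap : ContinuousOn (fun p : X × ℝ => (p.1, p.2 * τ p.1)) (W ×ˢ Icc (0 : ℝ) 1) := by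
      refine ContinuousOn.prodMk continuousOn_fst (ContinuousOn.mul continuousOn_snd ?_)
      exact hτcont.comp continuousOn_fst (fun p hp => hp.1)
    refine hHcont.comp hmap ?_
    rintro ⟨y, t⟩ ⟨hy, ht⟩
    exact ⟨hy, mul_nonneg ht.1 (hτpos y).le⟩
  · intro w hw
    refine ⟨?_, ?_, ?_⟩
    · show H w (0 * τ w) = w
      rw [zero_mul]
      exact hH0 w hw
    · show δ / 2 ≤ u (H w (1 * τ w))
      rw [one_mul]
      exact (hest w hw (τ w) (hτpos w).le le_rfl).2 rfl
    · show H w (1 * τ w) ∈ Metric.closedBall x (4 * r)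
      rw [one_mul, Metric.mem_closedBall, dist_comm]
      have := (hest w hw (τ w) (hτpos w).le le_rfl).1
      linarith
  · intro w hw t ht
    have h0 : 0 ≤ t * τ w := mul_nonneg ht.1 (hτpos w).le
    have h1 : t * τ w ≤ τ w := by
      have := mul_le_mul_of_nonneg_right ht.2 (hτpos w).le
      rwa [one_mul] at this
    refine ⟨hrU ?_, fun i => hHstrict w hw _ h0 i⟩
    rw [Metric.mem_closedBall, dist_comm]
    have := (hest w hw _ h0 h1).1
    linarith

end Pool.Agent.H6.AL
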