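import Pool.Agent.H96.AL.Targets4

open Topology Set Filter Real

namespace Pool.Agent.H6.AL

open Pool.Agent.H96.AL

/-- A Lipschitz function is continuous. -/
theorem cont_of_lip {X : Type} [MetricSpace X] {L : ℝ} {F : X → ℝ} (h : Lip L F) :
    Continuous F := by
  have h' : LipschitzWith (Real.toNNReal L) F := by
    refine LipschitzWith.of_dist_le_mul fun x y => ?_
    rw [Real.dist_eq]
    refine (h x y).trans ?_
    exact mul_le_mul_of_nonneg_right (Real.le_coe_toNNReal L) dist_nonneg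
  exact h'.continuous

/-- Hulls of nearby points. -/
theorem nb (hCF : T_CF) (hCT : T_CT) (hFL : T_FL) (hIN : T_IN) (hUN : T_UN) : T_NB := by
  intro X _ D hS hdim x
  obtain ⟨F, c, ρ, hc, hρ, hLip, hSC, hGood, hFx, hF⟩ := hCF X D hS hdim x
  have hD : 0 ≤ D := zero_le_one.trans hS.one_le
  have hch : 0 ≤ cosh D := (cosh_pos D).le
  obtain ⟨ρ', hρ', -, hfl⟩ := hCT X F x (cosh D) c ρ hch hc hρ hSC (cont_of_lip hLip) hFx hF
  refine ⟨ρ', hρ', fun y hy => ?_⟩
  obtain ⟨α, hα0, hα⟩ := hFL X D hS F D (cosh D) hD hch hLip hSC y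
  have hT : 0 ≤ 4 * ρ' / c := by positivity
  have hx : α (4 * ρ' / c) = x := (hfl D α hα (by rw [hα0]; exact hy) _ hT).2 le_rfl
  obtain ⟨-, -, -, hull_props⟩ := hUN X D hS
  obtain ⟨hext, hmem, -, -⟩ := hull_props y
  have := hIN X D hS F D (cosh D) (cosh D ^ 2) D hD hch (by positivity) hLip hSC hGood α hα
    (hull y) hext (by rw [hα0]; exact hmem) _ hT
  rwa [hx] at this

end Pool.Agent.H6.AL
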