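import Pool.Agent.H96.AL.Targets4

open Topology Set Filter Real

namespace Pool.Agent.H6.AL

open Pool.Agent.H96.AL

/-- A finite family of sets can be listed so that no later member is strictly contained in an
earlier one. -/
theorem zs_list {X : Type} : ∀ (n : ℕ) (F : Finset (Set X)), F.card = n →
    ∃ l : List (Set X), l.Nodup ∧ (∀ A, A ∈ l ↔ A ∈ F) ∧ l.Pairwise (fun a b => ¬ (b ⊂ a)) := by
  classical
  intro n
  induction n with
  | zero =>
    intro F hF
    refine ⟨[], List.nodup_nil, fun A => ?_, List.Pairwise.nil⟩
    rw [Finset.card_eq_zero] at hF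
    simp [hF]
  | succ n ih =>
    intro F hF
    have hne : F.Nonempty := by
      rw [← Finset.card_pos]; omega
    obtain ⟨m, hm⟩ := Finset.exists_minimal hne
    obtain ⟨l, hl1, hl2, hl3⟩ := ih (F.erase m) (by rw [Finset.card_erase_of_mem hm.prop, hF]; rfl)
    refine ⟨m :: l, ?_, fun A => ?_, ?_⟩
    · rw [List.nodup_cons]
      exact ⟨fun h => by simpa using (hl2 m).1 h, hl1⟩
    · rw [List.mem_cons, hl2, Finset.mem_erase]
      constructor
      · rintro (rfl | h)
        · exact hm.prop
        · exact h.2
      · intro h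
        by_cases hA : A = m
        · exact Or.inl hA
        · exact Or.inr ⟨hA, h⟩
    · rw [List.pairwise_cons]
      refine ⟨fun b hb hlt => ?_, hl3⟩
      have hb' : b ∈ F := (Finset.mem_erase.1 ((hl2 b).1 hb)).2
      exact hlt.2 (hm.le_of_le hb' hlt.1)

/-- The filtration by unions of hulls. -/
theorem zs (hUN : T_UN) : T_ZS := by
  classical
  intro X _ D hS hfin
  obtain ⟨hunion, -, hempty, hull_props⟩ := hUN X D hS
  obtain ⟨l, hl1, hl2, hl3⟩ := zs_list _ hfin.toFinset rfl
  have hmem : ∀ x : X, hull x ∈ l := fun x => by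
    rw [hl2, Set.Finite.mem_toFinset]; exact ⟨x, rfl⟩
  have hhull : ∀ i (h : i < l.length), ∃ x : X, hull x = l[i] := fun i h => by
    have h1 : l[i] ∈ l := List.getElem_mem h
    rw [hl2, Set.Finite.mem_toFinset] at h1
    exact h1
  have hpair : ∀ i j (hi : i < l.length) (hj : j < l.length), i < j → ¬ (l[j] ⊂ l[i]) :=
    fun i j hi hj hij => List.pairwise_iff_getElem.1 hl3 i j hi hj hij
  have hnodup : ∀ i j (hi : i < l.length) (hj : j < l.length), l[i] = l[j] → i = j :=
    fun i j hi hj h => (List.Nodup.getElem_inj_iff hl1).1 h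
  let Z : ℕ → Set X := fun j => {y | ∃ i, ∃ h : i < l.length, i < j ∧ y ∈ l[i]}
  have hZ0 : Z 0 = ∅ := by
    ext y
    simp only [Z, mem_setOf_eq, mem_empty_iff_false, iff_false]
    rintro ⟨i, h, hi, -⟩
    omega
  have hmono : Monotone Z := by
    rintro a b hab y ⟨i, h, hi, hy⟩
    exact ⟨i, h, by omega, hy⟩
  refine ⟨l.length, Z, hZ0, hmono, ?_, ?_, ?_, ?_⟩
  · ext x
    simp only [mem_univ, iff_true]
    obtain ⟨i, hi, h⟩ := List.mem_iff_getElem.1 (hmem x)
    refine ⟨i, hi, hi, ?_⟩
    rw [h]
    exact (hull_props x).2.1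
  · intro j
    induction j with
    | zero => rw [hZ0]; exact hempty
    | succ j ih =>
      by_cases hj : j < l.length
      · have : Z (j + 1) = Z j ∪ l[j] := by
          ext y
          constructor
          · rintro ⟨i, h, hi, hy⟩
            rcases Nat.lt_succ_iff_lt_or_eq.1 hi with h' | h'
            · exact Or.inl ⟨i, h, h', hy⟩
            · subst h'
              exact Or.inr hy
          · rintro (h | h)
            · exact hmono (Nat.le_succ j) h
            · exact ⟨j, hj, Nat.lt_succ_self j, h⟩
        rw [this]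
        refine hunion _ _ ih ?_
        obtain ⟨x, hx⟩ := hhull j hj
        rw [← hx]
        exact (hull_props x).1
      · have : Z (j + 1) = Z j := by
          ext y
          constructor
          · rintro ⟨i, h, hi, hy⟩
            exact ⟨i, h, by omega, hy⟩
          · intro h
            exact hmono (Nat.le_succ j) h
        rw [this]
        exact ih
  · rintro j hj ⟨x⟩
    have hpos : 0 < l.length := by
      obtain ⟨i, hi, -⟩ := List.mem_iff_getElem.1 (hmem x)
      omega
    obtain ⟨x', hx'⟩ := hhull 0 hpos
    refine ⟨x', 0, hpos, hj, ?_⟩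
    rw [← hx']
    exact (hull_props x').2.1
  · intro j
    by_cases hj : j < l.length
    · right
      obtain ⟨x, hx⟩ := hhull j hj
      refine ⟨x, ?_⟩
      ext y
      constructor
      · rintro ⟨⟨i, h, hi, hy⟩, hn⟩
        have hij : i = j := by
          by_contra hne
          exact hn ⟨i, h, by omega, hy⟩
        subst hij
        -- `y` lies in `hull x` and not in `Z i`
        have hsub : hull y ⊆ hull x := (hull_props x).2.2.2 y (by rw [hx]; exact hy)
        show hull y = hull x
        by_contra hne
        obtain ⟨i', hi', h'⟩ := List.mem_iff_getElem.1 (hmem y)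
        have hss : l[i'] ⊂ l[i] := by
          rw [h', ← hx]
          exact lt_of_le_of_ne hsub hne
        have h1 : i' ≠ i := by
          rintro rfl
          exact (ne_of_lt hss) rfl
        have h2 : ¬ i < i' := fun hlt => hpair i i' h hi' hlt hss
        refine hn ⟨i', hi', by omega, ?_⟩
        rw [h']
        exact (hull_props y).2.1
      · intro hy
        have hy' : hull y = hull x := hy
        refine ⟨⟨j, hj, Nat.lt_succ_self j, ?_⟩, ?_⟩
        · rw [← hx, ← hy']
          exact (hull_props y).2.1
        · rintro ⟨i, hi, hij, hyi⟩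
          obtain ⟨x', hx'⟩ := hhull i hi
          have hsub : l[j] ⊆ l[i] := by
            rw [← hx, ← hx', ← hy']
            exact (hull_props x').2.2.2 y (by rw [hx']; exact hyi)
          have hne : l[j] ≠ l[i] := fun h => by
            have := hnodup j i hj hi h
            omega
          exact hpair i j hi hj hij (lt_of_le_of_ne hsub hne)
    · left
      ext y
      simp only [mem_empty_iff_false, iff_false]
      rintro ⟨⟨i, h, hi, hy⟩, hn⟩
      exact hn ⟨i, h, by omega, hy⟩

end Pool.Agent.H6.AL
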